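import Pool.Agent.W580.SH.StmB

/-! Project SH (helper580), parts T1 and F1: tightness of prisms. -/

set_option autoImplicit false
set_option linter.unusedSectionVars false

namespace Pool.Agent.W249.SH

open Finset Pool.Agent.W580.SH

variable {R : Type} {I : Finset R} {A : Finset (R → ℤ)} {O : R → ℝ} {θ : ℝ}

/-- use of the key property for five points -/
lemma key5 (H : HypB I A O θ) (r : Fin 4 → R) (p : Fin 5 → (R → ℤ)) (hp : ∀ j, p j ∈ A)
    (hdet : ∀ x : Fin 5 → ℤ, (∑ j, x j = 0) → (∀ a, ∑ j, p j (r a) * x j = 0) → x = 0)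
    (w : Fin 5 → ℝ) (hw1 : ∑ j, w j = 1)
    (hw : ∀ a, ∑ j, w j * ((p j (r a) : ℤ) : ℝ) = O (r a)) (F : Finset (Fin 5)) :
    -θ ≤ ∑ j ∈ F, w j := by
  refine (H.key 4 r p hp).2 ?_ w hw1 hw F
  intro h0
  obtain ⟨x, hx, hM⟩ := Matrix.exists_mulVec_eq_zero_iff.mpr h0
  apply hx
  apply hdet
  · have h1 := congrFun hM 0
    simpa [oneMat, Matrix.mulVec, dotProduct] using h1
  · intro a
    have h1 := congrFun hM (Fin.succ a)
    simpa [oneMat, Matrix.mulVec, dotProduct] using h1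

/-- use of the key property for five points and four rows with explicit values -/
lemma key5' (H : HypB I A O θ) (l j k s : R) (p0 p1 p2 p3 p4 : R → ℤ) (h0 : p0 ∈ A) (h1 : p1 ∈ A)
    (h2 : p2 ∈ A) (h3 : p3 ∈ A) (h4 : p4 ∈ A)
    (hdet : ∀ x0 x1 x2 x3 x4 : ℤ, x0 + x1 + x2 + x3 + x4 = 0 →
      p0 l * x0 + p1 l * x1 + p2 l * x2 + p3 l * x3 + p4 l * x4 = 0 →
      p0 j * x0 + p1 j * x1 + p2 j * x2 + p3 j * x3 + p4 j * x4 = 0 →
      p0 k * x0 + p1 k * x1 + p2 k * x2 + p3 k * x3 + p4 k * x4 = 0 →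
      p0 s * x0 + p1 s * x1 + p2 s * x2 + p3 s * x3 + p4 s * x4 = 0 →
      x0 = 0 ∧ x1 = 0 ∧ x2 = 0 ∧ x3 = 0 ∧ x4 = 0)
    (w0 w1 w2 w3 w4 : ℝ) (hw : w0 + w1 + w2 + w3 + w4 = 1)
    (hl : w0 * p0 l + w1 * p1 l + w2 * p2 l + w3 * p3 l + w4 * p4 l = O l)
    (hj : w0 * p0 j + w1 * p1 j + w2 * p2 j + w3 * p3 j + w4 * p4 j = O j)
    (hk : w0 * p0 k + w1 * p1 k + w2 * p2 k + w3 * p3 k + w4 * p4 k = O k)
    (hs : w0 * p0 s + w1 * p1 s + w2 * p2 s + w3 * p3 s + w4 * p4 s = O s) : -θ ≤ w2 := by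
  have key := key5 H ![l, j, k, s] ![p0, p1, p2, p3, p4] ?_ ?_ ![w0, w1, w2, w3, w4] ?_ ?_ {2}
  · simpa using key
  · intro i
    fin_cases i
    · exact h0
    · exact h1
    · exact h2
    · exact h3
    · exact h4
  · intro x hx1 hx2
    have g0 := hx2 0
    have g1 := hx2 1
    have g2 := hx2 2
    have g3 := hx2 3
    rw [Fin.sum_univ_five] at hx1 g0 g1 g2 g3
    obtain ⟨e0, e1, e2, e3, e4⟩ := hdet (x 0) (x 1) (x 2) (x 3) (x 4) hx1 g0 g1 g2 g3
    funext i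
    fin_cases i
    · exact e0
    · exact e1
    · exact e2
    · exact e3
    · exact e4
  · rw [Fin.sum_univ_five]
    exact hw
  · intro a
    rw [Fin.sum_univ_five]
    fin_cases a
    · exact hl
    · exact hj
    · exact hk
    · exact hs

theorem t1 : S_T1 := by
  intro R _ _ I A O θ H l j k s c u v hP hl hj hk hs hc y hy yl yj yk
  obtain ⟨huv, u0j, u0k, u1j, u1k, u2j, u2k⟩ := hP
  obtain ⟨u0A, v0A, u0l, v0l, v0j, v0k⟩ := huv 0
  obtain ⟨u1A, -, u1l, -, -, -⟩ := huv 1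
  obtain ⟨u2A, -, u2l, -, -, -⟩ := huv 2
  have c01 : c = 0 ∨ c = 1 := by rw [← (hc 0).1]; exact H.bin _ u0A s
  have y01 := H.bin y hy s
  have hO1 := H.O1 s
  by_contra hcon
  have hys : y s = 1 - c := by omega
  have key := key5' H l j k s (u 1) (u 2) (u 0) (v 0) y u1A u2A u0A v0A hy ?_ θ θ
    (-θ - (O s - c) * (1 - 2 * c)) (1 - θ) ((O s - c) * (1 - 2 * c)) ?_ ?_ ?_ ?_ ?_
  · rcases c01 with h | h
    · rw [h] at key; push_cast at key; linarith
    · rw [h] at key; push_cast at key; linarith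
  · intro x0 x1 x2 x3 x4 a0 a1 a2 a3 a4
    rw [u1l, u2l, u0l, v0l, yl] at a1
    rw [u1j, u2j, u0j, v0j, u0j, yj] at a2
    rw [u1k, u2k, u0k, v0k, u0k, yk] at a3
    rw [(hc 1).1, (hc 2).1, (hc 0).1, (hc 0).2, hys] at a4
    rcases c01 with h | h
    · rw [h] at a4; omega
    · rw [h] at a4; omega
  · ring
  · rw [u1l, u2l, u0l, v0l, yl, hl]; push_cast; ring
  · rw [u1j, u2j, u0j, v0j, u0j, yj, hj]; push_cast; ring
  · rw [u1k, u2k, u0k, v0k, u0k, yk, hk]; push_cast; ring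
  · rw [(hc 1).1, (hc 2).1, (hc 0).1, (hc 0).2, hys]
    rcases c01 with h | h
    · rw [h]; push_cast; ring
    · rw [h]; push_cast; ring

theorem f1 (h : S_V2) : S_F1 := by
  intro R _ _ I A O θ H hθ l j k s c u v hP hl hj hk hs hc y hy yl
  have hV2 := h R I A O θ H l j k u v hP y hy
  have hT1 := t1 R I A O θ H l j k s c u v hP hl hj hk hs hc y hy yl
  obtain ⟨huv, u0j, u0k, u1j, u1k, u2j, u2k⟩ := hP
  obtain ⟨u0A, v0A, u0l, v0l, v0j, v0k⟩ := huv 0
  obtain ⟨u1A, v1A, u1l, v1l, v1j, v1k⟩ := huv 1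
  obtain ⟨u2A, v2A, u2l, v2l, v2j, v2k⟩ := huv 2
  have c01 : c = 0 ∨ c = 1 := by rw [← (hc 0).1]; exact H.bin _ u0A s
  have y01 := H.bin y hy s
  have hO1 := H.O1 s
  rcases H.bin y hy j with yj | yj
  · rcases H.bin y hy k with yk | yk
    · exact hT1 yj yk
    · by_contra hcon
      have hys : y s = 1 - c := by omega
      have key := key5' H l j k s (u 0) (u 1) (u 2) (v 2) y u0A u1A u2A v2A hy ?_ (1 - 2 * θ) θ
        (2 * θ - 1 - (O s - c) * (1 - 2 * c)) (1 - θ) ((O s - c) * (1 - 2 * c)) ?_ ?_ ?_ ?_ ?_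
      · rcases c01 with h | h
        · rw [h] at key; push_cast at key; linarith
        · rw [h] at key; push_cast at key; linarith
      · intro x0 x1 x2 x3 x4 a0 a1 a2 a3 a4
        rw [u0l, u1l, u2l, v2l, yl] at a1
        rw [u0j, u1j, u2j, v2j, u2j, yj] at a2
        rw [u0k, u1k, u2k, v2k, u2k, yk] at a3
        rw [(hc 0).1, (hc 1).1, (hc 2).1, (hc 2).2, hys] at a4
        rcases c01 with h | h
        · rw [h] at a4; omega
        · rw [h] at a4; omega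
      · ring
      · rw [u0l, u1l, u2l, v2l, yl, hl]; push_cast; ring
      · rw [u0j, u1j, u2j, v2j, u2j, yj, hj]; push_cast; ring
      · rw [u0k, u1k, u2k, v2k, u2k, yk, hk]; push_cast; ring
      · rw [(hc 0).1, (hc 1).1, (hc 2).1, (hc 2).2, hys]
        rcases c01 with h | h
        · rw [h]; push_cast; ring
        · rw [h]; push_cast; ring
  · rcases H.bin y hy k with yk | yk
    · by_contra hcon
      have hys : y s = 1 - c := by omega
      have key := key5' H l j k s (u 0) (u 2) (u 1) (v 1) y u0A u2A u1A v1A hy ?_ (1 - 2 * θ) θ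
        (2 * θ - 1 - (O s - c) * (1 - 2 * c)) (1 - θ) ((O s - c) * (1 - 2 * c)) ?_ ?_ ?_ ?_ ?_
      · rcases c01 with h | h
        · rw [h] at key; push_cast at key; linarith
        · rw [h] at key; push_cast at key; linarith
      · intro x0 x1 x2 x3 x4 a0 a1 a2 a3 a4
        rw [u0l, u2l, u1l, v1l, yl] at a1
        rw [u0j, u2j, u1j, v1j, u1j, yj] at a2
        rw [u0k, u2k, u1k, v1k, u1k, yk] at a3
        rw [(hc 0).1, (hc 2).1, (hc 1).1, (hc 1).2, hys] at a4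
        rcases c01 with h | h
        · rw [h] at a4; omega
        · rw [h] at a4; omega
      · ring
      · rw [u0l, u2l, u1l, v1l, yl, hl]; push_cast; ring
      · rw [u0j, u2j, u1j, v1j, u1j, yj, hj]; push_cast; ring
      · rw [u0k, u2k, u1k, v1k, u1k, yk, hk]; push_cast; ring
      · rw [(hc 0).1, (hc 2).1, (hc 1).1, (hc 1).2, hys]
        rcases c01 with h | h
        · rw [h]; push_cast; ring
        · rw [h]; push_cast; ring
    · exact absurd ⟨yj, yk⟩ hV2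

end Pool.Agent.W249.SH

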